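import Pool.Agent.helper88.GR.Spec

/-!
# Project g3: (MP_af9036_an x25, MP_70a088_an x10): Theorem G (closest returns) for all `n ≥ 3`

Paper: /team-store/MP_af9036_G3_helper54.md (addition to /team-store/MP_af9036_G_helper88.md). Everything of `Pool/Agent/helper88/GR/Spec.lean` (project gr:, proved) is used.
NEW IDEA: the cell `i` minimises `|A j| d_j²`, `d_j` the distance of `z_j` to the nearest other `z_l`; `k` is the nearest neighbour of `i`. Then the local form of `B` is known at `z_i` AND at `z_k`, and this excludes the case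
`n = 3`, `d = 1` (the only one of Theorem G with `n = 3` which the symmetry does not exclude).

RULES. File `Pool/Agent/<seat>/GR3/XX.lean`: `import Pool.Agent.helper54.GR3.Spec`, `set_option autoImplicit false`,
`open Complex Metric Set Filter Topology MeasureTheory`, `open MPS (om)`, `open PPS (pre TT fd)`, `open XPS (Df er dens tau)`, `open Pool.Agent.helper16.Multibrot`, `noncomputable section`, `namespace GR`,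
`theorem XX (h : YY_stmt) ... : XX_stmt`. Hypotheses may be: other statements of this file (no circles), all statements of `GR` (helper88's spec) and of `PPS`, `MPS`, `XPS`, `V3`, `NLF` (all proved).
Auxiliary lemmas prefixed `XX_`. No `sorry`, no straight double quotes in comments.
-/

set_option autoImplicit false

open Complex Metric Set Filter Topology MeasureTheory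
open MPS (om)
open PPS (pre TT fd)
open XPS (Df er dens tau)
open Pool.Agent.helper16.Multibrot

noncomputable section

namespace GR

/-! ## Part W: weighted sums over disjoint discs (pure) -/

/-- ARE: packing of discs.
PROOF. The balls `ball (z j) (r j)` are pairwise disjoint (`disjoint_ball_ball_iff`: `r i + r j ≤ dist`) and contained in `ball a ρ`. Volumes (`Complex.volume_ball`: `π r²`): `measure_biUnion_finset`, `∑ π r_j² ≤ π ρ²`. If `s` is empty the claim is `0 ≤ ρ²`;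
otherwise `ρ > 0`. -/
def ARE_stmt : Prop := ∀ (ι : Type) (s : Finset ι) (z : ι → ℂ) (r : ι → ℝ) (a : ℂ) (ρ : ℝ), (∀ j ∈ s, 0 < r j) →
  (∀ i ∈ s, ∀ j ∈ s, i ≠ j → r i + r j ≤ ‖z i - z j‖) → (∀ j ∈ s, ‖z j - a‖ + r j ≤ ρ) → ∑ j ∈ s, r j ^ 2 ≤ ρ ^ 2

/-- WS3: the sum with weight `r²/dist³` outside a disc.
PROOF. Dyadic decomposition: for `m : ℕ` let `s_m = {j ∈ s | 2^m d ≤ ‖z j - a‖ < 2^(m+1) d}`. On `s_m`, `‖z j - a‖ + r j ≤ (3/2)‖z j - a‖ ≤ 3·2^m d`, so ARE: `∑_(s_m) r_j² ≤ 9·4^m d²` and `∑_(s_m) r_j²/‖z_j-a‖³ ≤ 9·4^m d²/(8^m d³) = 9/(2^m d)`; sum over `m < M`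
(`M` with `s ⊆ ⋃_(m<M) s_m`): `≤ 18/d`. (Or: induction on a bound for `max ‖z j - a‖`. Or integrals: `r_j²/‖z_j-a‖³ ≤ C ∫_(ball (z j) (r j)) ‖z-a‖^(-3)`.) -/
def WS3_stmt : Prop := ∀ (ι : Type) (s : Finset ι) (z : ι → ℂ) (r : ι → ℝ) (a : ℂ) (d : ℝ), 0 < d → (∀ j ∈ s, 0 < r j) →
  (∀ i ∈ s, ∀ j ∈ s, i ≠ j → r i + r j ≤ ‖z i - z j‖) → (∀ j ∈ s, r j ≤ ‖z j - a‖ / 2) → (∀ j ∈ s, d ≤ ‖z j - a‖) →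
  ∑ j ∈ s, r j ^ 2 / ‖z j - a‖ ^ 3 ≤ 18 / d

/-- WS5: the sum with weight `r²/dist` inside a disc.
PROOF. Dyadic: `s_m = {j ∈ s | 2^(-m-1) d ≤ ‖z j - a‖ < 2^(-m) d}`, `∑_(s_m) r_j² ≤ ((3/2) 2^(-m) d)²` (ARE), so `∑_(s_m) r_j²/‖z_j-a‖ ≤ (9/4) 4^(-m) d² · 2^(m+1)/d = (9/2) 2^(-m) d`; sum `≤ 9 d`. (`z j ≠ a` as `0 < r j ≤ ‖z j - a‖/2`; `s` is finite, so finitely many `m`.) -/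
def WS5_stmt : Prop := ∀ (ι : Type) (s : Finset ι) (z : ι → ℂ) (r : ι → ℝ) (a : ℂ) (d : ℝ), 0 < d → (∀ j ∈ s, 0 < r j) →
  (∀ i ∈ s, ∀ j ∈ s, i ≠ j → r i + r j ≤ ‖z i - z j‖) → (∀ j ∈ s, r j ≤ ‖z j - a‖ / 2) → (∀ j ∈ s, ‖z j - a‖ < d) →
  ∑ j ∈ s, r j ^ 2 / ‖z j - a‖ ≤ 9 * d

/-- WS4: two centres.
PROOF. Split `s`. For `‖z j - b‖ < d`: `1/(x² y) ≤ 1/(d² y)`, WS5 at `b`: `≤ 9/d`. For `‖z j - b‖ ≥ d`: `1/(x² y) ≤ 1/x³ + 1/y³` (compare with the smaller of `x`, `y`), WS3 at `a` and at `b`: `≤ 36/d`. -/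
def WS4_stmt : Prop := ∀ (ι : Type) (s : Finset ι) (z : ι → ℂ) (r : ι → ℝ) (a b : ℂ) (d : ℝ), 0 < d → (∀ j ∈ s, 0 < r j) →
  (∀ i ∈ s, ∀ j ∈ s, i ≠ j → r i + r j ≤ ‖z i - z j‖) → (∀ j ∈ s, r j ≤ ‖z j - a‖ / 2) → (∀ j ∈ s, r j ≤ ‖z j - b‖ / 2) →
  (∀ j ∈ s, d ≤ ‖z j - a‖) → ∑ j ∈ s, r j ^ 2 / (‖z j - a‖ ^ 2 * ‖z j - b‖) ≤ 45 / d

/-- NBR: the choice of the cell `i` and of its nearest neighbour `k`.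
PROOF. `d_j = min_(l ∈ s, l ≠ j) ‖z l - z j‖ > 0` (`2 ≤ card`, `Finset.exists_min_image`). Let `i ∈ s` minimise `σ j * d_j²`, `m = σ i * d_i²`, `k` with `‖z k - z i‖ = d_i`. For all `l ∈ s`: `σ l d_l² ≥ m`, so `1/σ l ≤ d_l²/m = 4 r_l²/m` with `r_l = d_l/2`. `r_j + r_l ≤ ‖z j - z l‖` (`d_j, d_l ≤ ‖z j - z l‖`); for
`l ≠ i`: `d_l ≤ ‖z l - z i‖`, so `r_l ≤ ‖z l - z i‖/2`, and for `l ≠ k`: `r_l ≤ ‖z l - z k‖/2`; `d_i ≤ ‖z l - z i‖`. WS3 with `a = z i`, `d = d_i`: first sum `≤ (4/m)(18/d_i) = 72/(σ_i d_i³)`. WS4 with `a = z i`, `b = z k`: second sum `≤ (4/m)(45/d_i) = 180/(σ_i d_i³)`.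
`σ i ≤ σ k`: `d_k ≤ ‖z i - z k‖ = d_i` and `σ k d_k² ≥ σ i d_i²`. -/
def NBR_stmt : Prop := ∀ (ι : Type) [DecidableEq ι] (s : Finset ι) (z : ι → ℂ) (σ : ι → ℝ), 2 ≤ s.card → (∀ j ∈ s, 0 < σ j) →
  (∀ i ∈ s, ∀ j ∈ s, i ≠ j → σ i + σ j ≤ ‖z i - z j‖) →
  ∃ i ∈ s, ∃ k ∈ s, i ≠ k ∧ σ i ≤ σ k ∧ (∀ l ∈ s, l ≠ i → ‖z k - z i‖ ≤ ‖z l - z i‖) ∧
    ∑ l ∈ s.erase i, 1 / (σ l * ‖z l - z i‖ ^ 3) ≤ 72 / (σ i * ‖z k - z i‖ ^ 3) ∧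
    ∑ l ∈ (s.erase i).erase k, 1 / (σ l * (‖z l - z i‖ ^ 2 * ‖z l - z k‖)) ≤ 180 / (σ i * ‖z k - z i‖ ^ 3)

/-- NF3: the normal forms of `∑ ρ j/(z - z j)` at `z i` and at `z k`.
PROOF. `i, k` from NBR; `D = ‖z k - z i‖/σ i ≥ 1 + σ k/σ i ≥ 2`. Put `ρ' j = σ i * ρ j` and `p l = (z l - z i)/σ i`, so `σ_i² ∑ ρ j/(z i + σ_i x - z j) = ∑ ρ' j/(x - p j)`, `‖ρ' l‖ ≤ 2 σ i/σ l`, `p i = 0`, `‖p l‖ ≥ D` (`l ≠ i`). `a = -∑_(l≠i) ρ' l/p l`, `b = -∑_(l≠i) ρ' l/(p l)²`. Identity: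
`1/(x-p) + 1/p + x/p² = x²/(p² (x-p))`. (1) `0 < ‖x‖ ≤ 1/2`: `‖x - p l‖ ≥ ‖p l‖/2`; the difference is `∑_(l≠i) ρ' l x²/(p_l² (x - p_l))`, norm `≤ 2‖x‖² ∑ (2 σ i/σ l)(σ i/‖z l - z i‖)³ = 4‖x‖² σ_i⁴ ∑ 1/(σ l ‖z l - z i‖³) ≤ 4·72 ‖x‖²/D³ ≤ 36‖x‖²`.
(2) `x = p k + (σ k/σ i) y`, `0 < ‖y‖ ≤ 1/2`; `σ k/σ i ≤ D`, so `D/2 ≤ ‖x‖ ≤ 3D/2`. The difference (the pole `l = k` is removed: `ρ' k/(x - p k) = σ_i² ρ k/(σ k y)`) is `ρ' i/x + ρ' k (1/p k + x/p_k²) + ∑_(l≠i,k) ρ' l x²/(p_l² (x - p_l))`: `‖ρ' i/x‖ ≤ 4/D`; `‖ρ' k‖ ≤ 2 σ i/σ k ≤ 2`, second term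
`≤ 2 (1/D + 3/(2D)) = 5/D`; for `l ≠ i, k`: `‖x - p l‖ ≥ ‖p k - p l‖ - (σ k/σ i)/2 ≥ ‖p k - p l‖/2` (`‖z k - z l‖ ≥ σ k`), third term `≤ (9/4) D²·2·2 σ_i⁴ ∑ 1/(σ l ‖z l - z i‖² ‖z l - z k‖) ≤ 9 D²·180/D³ = 1620/D`. Total `≤ 2000/D`. -/
def NF3_stmt : Prop := ∀ (ι : Type) [DecidableEq ι] (s : Finset ι) (z ρ : ι → ℂ) (σ : ι → ℝ), 2 ≤ s.card → (∀ j ∈ s, 0 < σ j) →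
  (∀ i ∈ s, ∀ j ∈ s, i ≠ j → σ i + σ j ≤ ‖z i - z j‖) → (∀ j ∈ s, ‖ρ j‖ * σ j ≤ 2) →
  ∃ i ∈ s, ∃ k ∈ s, i ≠ k ∧ σ i ≤ σ k ∧ ∃ a b : ℂ,
    (∀ x : ℂ, 0 < ‖x‖ → ‖x‖ ≤ 1 / 2 →
      ‖(σ i : ℂ) ^ 2 * ∑ j ∈ s, ρ j / (z i + (σ i : ℂ) * x - z j) - (σ i : ℂ) * ρ i / x - a - b * x‖ ≤ 2000 * ‖x‖ ^ 2) ∧
    ∀ y : ℂ, 0 < ‖y‖ → ‖y‖ ≤ 1 / 2 →
      ‖(σ i : ℂ) ^ 2 * ∑ j ∈ s, ρ j / (z k + (σ k : ℂ) * y - z j) - (σ i : ℂ) ^ 2 / (σ k : ℂ) * ρ k / y -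
        (a + b * ((z k - z i) / (σ i : ℂ) + (σ k : ℂ) / (σ i : ℂ) * y))‖ ≤ 2000 * (σ i / ‖z k - z i‖)

/-! ## Part M: the local forms of `B` -/

/-- MD3: the local form of `B` at the cells `i` and `k`.
PROOF. `sg = sg C n c p q > 0` (R > 0, A p ≠ 0: NAT), `σ j = sg ‖A j‖ = ss C n c p q j`, `s = Icc 1 p` (`card = p ≥ 2` as `1 ≤ q < p`), `z = Z n c`, `ρ j = xc j/A j/sg`: CEL gives `σ i + σ j ≤ ‖Z i - Z j‖`; `‖ρ j‖ σ j = ‖xc j‖ ≤ 1 + ‖lam‖ ≤ 2` (NAT, CEL: `‖lam‖ ≤ 2C/X ≤ 1/8`). NF3 gives `i, k, a', b'`.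
`B z = sg ∑ ρ j/(z - Z j)`. With the units `θ_j = A j/‖A j‖`: `Bh_i x = σ_i A_i B(Z i + σ_i x) = θ_i σ_i² ∑ ρ j/(Z i + σ_i x - Z j)` (`A_i sg/σ_i = θ_i`), `θ_i σ_i ρ_i = xc i`; so `a = θ_i a'`, `b = θ_i b'`. With `l = σ_k/σ_i = ‖A k‖/‖A i‖ ≥ 1`: `Bh_k y = σ_k A_k B(Z k + σ_k y) =
θ_k l² σ_i² ∑ ρ j/(Z k + σ_k y - Z j)`, `θ_k l² σ_i²/σ_k ρ_k = xc k`. So `μ = θ_k l²/θ_i`, `P = (Z k - Z i)/σ_i`, `‖P‖ = ‖Z k - Z i‖/σ_i ≥ 1 + l ≥ 2`. -/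
def MD3_stmt : Prop := ∀ (C : ℝ) (n : ℕ) (c : ℂ) (p q : ℕ) (G : ℕ → ℂ → ℂ), KQ C → Ret n c p q →
  Tow n c p q G → 16 * C ≤ X n c p q → ∃ i ∈ Finset.Icc 1 p, ∃ k ∈ Finset.Icc 1 p, ∃ (a b P μ : ℂ) (l : ℝ),
    1 ≤ l ∧ l ≤ ‖P‖ ∧ 2 ≤ ‖P‖ ∧ ‖μ‖ = l ^ 2 ∧
    (∀ x : ℂ, 0 < ‖x‖ → ‖x‖ ≤ 1 / 2 → ‖Bh C n c p q i x - xc n c p q i / x - a - b * x‖ ≤ 2000 * ‖x‖ ^ 2) ∧
    ∀ y : ℂ, 0 < ‖y‖ → ‖y‖ ≤ 1 / 2 →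
      ‖Bh C n c p q k y - xc n c p q k / y - μ * (a + b * (P + (l : ℂ) * y))‖ ≤ 2000 * l ^ 2 / ‖P‖

/-- LOC3: one of the three terms dominates on an annulus; more information for `d = 1`.
PROOF. COPY of helper22/GR/LOC.lean (LOC_stmt) with `Λ` larger: also `Λ ≥ Γ² Λ₁ + Λ₁`. There `X₀ = Γ Λ^8`, `c₀ = 1/(Γ Λ^6)`, `ρ = 1/(Γ Λ^k)`, `1 ≤ k ≤ 6`. `Λ₁/X₀ = Λ₁/(Γ Λ^8) ≤ 1/(Γ Λ^6) ≤ ρ` as `Λ₁ ≤ Λ ≤ Λ²`. Third alternative of SEL (`d = 1`): `Λ Λ^k ≤ ‖b‖/Λ^k`, i.e. `‖b‖ ≥ Λ (Λ^k)² = Λ/(Γρ)²`, so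
`‖b‖ ρ² ≥ Λ/Γ² ≥ Λ₁`; and `Λ ‖a‖ ≤ ‖b‖/Λ^k = ‖b‖ Γ ρ`, so `Λ₁ ‖a‖ ≤ (Λ/Γ)‖a‖ ≤ ‖b‖ρ`. -/
def LOC3_stmt : Prop := ∀ Γ C₂ C₃ ρ₁ η Λ₁ : ℝ, 1 ≤ Γ → 0 ≤ C₂ → 0 ≤ C₃ → 0 < ρ₁ → 0 < η → 1 ≤ Λ₁ →
  ∃ X₀ c₀ : ℝ, 1 ≤ X₀ ∧ 0 < c₀ ∧
  ∀ (g bh : ℂ → ℂ) (u₀ γ xs a b : ℂ), ‖γ‖ = Γ → ‖u₀‖ ≤ 1 / X₀ → ‖xs - 1‖ ≤ 1 / X₀ →
  (∀ u : ℂ, ‖u‖ ≤ 1 / 4 → ‖g u - γ * (u - u₀)‖ ≤ C₃ * ‖u - u₀‖ ^ 2 ∧ ‖deriv g u - γ‖ ≤ C₃ * ‖u - u₀‖) →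
  (∀ x : ℂ, 0 < ‖x‖ → ‖x‖ ≤ 1 / 2 → ‖bh x - xs / x - a - b * x‖ ≤ C₂ * ‖x‖ ^ 2) →
  ∃ (ρ : ℝ) (κ : ℂ) (d : ℤ), c₀ ≤ ρ ∧ ρ ≤ ρ₁ ∧ Λ₁ / X₀ ≤ ρ ∧
    (d = -1 ∨ d = 0 ∨ (d = 1 ∧ Λ₁ ≤ ‖b‖ * ρ ^ 2 ∧ Λ₁ * ‖a‖ ≤ ‖b‖ * ρ)) ∧ ∀ u : ℂ, ρ / 2 < ‖u‖ → ‖u‖ < ρ →
    ‖bh (g u) * deriv g u ^ 2 - κ * u ^ d‖ ≤ η * ‖κ * u ^ d‖ ∧ 1 ≤ ‖κ * u ^ d‖

/-- LCK: the local form at the neighbour `k` is constant on the same annulus if `d = 1` at `i`.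
PROOF. `κ = μ b P γ²`. `ρ₁` small, `Λ₁` large (depending on `Γ, C₂, C₃, η`). Let `ρ/2 < ‖u‖ < ρ`. `‖u₀‖ ≤ ρ/Λ₁`, so (as in LOC) `g u = γ u (1 + ε₁)`, `deriv g u = γ (1 + ε₂)`, `‖ε₁‖, ‖ε₂‖ ≤ C (ρ₁ + 1/Λ₁)`; `y = g u`: `Γρ/4 ≤ ‖y‖ ≤ 2Γρ ≤ 1/2`. `bh y = μ b P (1 + δ)`,
`δ = a/(bP) + l y/P + xs/(y μ b P) + err/(μ b P)`: `‖a‖/(‖b‖‖P‖) ≤ ρ/Λ₁`; `l‖y‖/‖P‖ ≤ ‖y‖ ≤ 2Γρ₁`; `‖xs‖/(‖y‖ l² ‖b‖ ‖P‖) ≤ 2·4/(Γρ·‖b‖·2) ≤ 4ρ/Λ₁` (`‖b‖ ≥ Λ₁/ρ²`); `‖err‖/(l²‖b‖‖P‖) ≤ C₂/(‖P‖²‖b‖) ≤ C₂ρ²/Λ₁`. All small. So `bh y (deriv g u)² = κ (1 + small)`.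
`‖κ‖ = l²‖b‖‖P‖Γ² ≥ 2Λ₁/ρ² ≥ 1`. -/
def LCK_stmt : Prop := ∀ Γ C₂ C₃ η : ℝ, 1 ≤ Γ → 0 ≤ C₂ → 0 ≤ C₃ → 0 < η → ∃ ρ₁ Λ₁ : ℝ, 0 < ρ₁ ∧ 1 ≤ Λ₁ ∧
  ∀ (ρ : ℝ) (g bh : ℂ → ℂ) (u₀ γ xs a b P μ : ℂ) (l : ℝ), 0 < ρ → ρ ≤ ρ₁ → ‖γ‖ = Γ → Λ₁ * ‖u₀‖ ≤ ρ → ‖xs‖ ≤ 2 →
  1 ≤ l → l ≤ ‖P‖ → 2 ≤ ‖P‖ → ‖μ‖ = l ^ 2 → Λ₁ ≤ ‖b‖ * ρ ^ 2 → Λ₁ * ‖a‖ ≤ ‖b‖ * ρ →
  (∀ u : ℂ, ‖u‖ ≤ 1 / 4 → ‖g u - γ * (u - u₀)‖ ≤ C₃ * ‖u - u₀‖ ^ 2 ∧ ‖deriv g u - γ‖ ≤ C₃ * ‖u - u₀‖) →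
  (∀ y : ℂ, 0 < ‖y‖ → ‖y‖ ≤ 1 / 2 → ‖bh y - xs / y - μ * (a + b * (P + (l : ℂ) * y))‖ ≤ C₂ * l ^ 2 / ‖P‖) →
  ∃ κ : ℂ, ∀ u : ℂ, ρ / 2 < ‖u‖ → ‖u‖ < ρ → ‖bh (g u) * deriv g u ^ 2 - κ‖ ≤ η * ‖κ‖ ∧ 1 ≤ ‖κ‖

/-- PH3: the phases, all `n ≥ 2`.
PROOF. COPY of helper6/GR/PHA.lean: `∑_k ω^(k(d+2)) = 0` because `n ∤ d + 2`. -/
def PH3_stmt : Prop := ∀ n : ℕ, 2 ≤ n → ∀ (κ u : ℂ) (h : ℕ → ℂ) (d : ℤ),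
  ¬ ((n : ℤ) ∣ d + 2) → u ≠ 0 → (∀ k < n, ‖h k - κ * (om n ^ k * u) ^ d‖ ≤ 1 / 4 * ‖κ * u ^ d‖) →
  (n : ℝ) / 2 * ‖κ * u ^ d‖ ≤ ∑ k ∈ Finset.range n, ‖h k‖ - ‖∑ k ∈ Finset.range n, om n ^ (2 * k) * h k‖

/-- PAI: the pair inequality.
PROOF. For `a, b ≠ 0` with unit vectors `â, b̂`: `(|a|+|b|)² - |a+b|² = 2(|a||b| - Re(a conj b)) = |a||b| |â - b̂|²`, so `|a| + |b| - |a+b| = |a||b||â-b̂|²/(|a|+|b|+|a+b|) ≥ (1/4) min(|a|,|b|) |â-b̂|²`. `|â₁ - v̂| ≤ 2|a₁-v|/|v| ≤ 1/8`, `|â₂ + v̂| ≤ 1/8`, `|b̂_j - ŵ| ≤ 1/8`, so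
`|(â₁ - b̂₁) - (â₂ - b̂₂)| ≥ 2 - 4/8 = 3/2`, `|â₁-b̂₁|² + |â₂-b̂₂|² ≥ (1/2)(3/2)² = 9/8`; `min ≥ 15/16`: the sum is `≥ (1/4)(15/16)(9/8) ≥ 1/8`. -/
def PAI_stmt : Prop := ∀ v w a₁ a₂ b₁ b₂ : ℂ, 1 ≤ ‖v‖ → 1 ≤ ‖w‖ → ‖a₁ - v‖ ≤ 1 / 16 * ‖v‖ → ‖a₂ + v‖ ≤ 1 / 16 * ‖v‖ →
  ‖b₁ - w‖ ≤ 1 / 16 * ‖w‖ → ‖b₂ - w‖ ≤ 1 / 16 * ‖w‖ →
  1 / 8 ≤ (‖a₁‖ + ‖b₁‖ - ‖a₁ + b₁‖) + (‖a₂‖ + ‖b₂‖ - ‖a₂ + b₂‖)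

/-- CHP: two cells are aligned with each other.
PROOF. `b = tau B G 0`, `h = tau B G m`, `h' = tau B G m'`. `2b = (b - h) + (b - h') + (h + h')`, so `‖h‖ + ‖h'‖ - ‖h + h'‖ ≤ (‖h‖ + ‖b - h‖ - ‖b‖) + (‖h'‖ + ‖b - h'‖ - ‖b‖)`; both brackets are `≥ 0`: `ofReal` of the sum is the sum; CHN twice (measurability on the ball as in helper76/GR/SYM.lean). -/
def CHP_stmt : Prop := ∀ (C : ℝ) (n : ℕ) (c : ℂ) (p q : ℕ) (G : ℕ → ℂ → ℂ) (E : ℝ), KQ C → Ret n c p q →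
  Tow n c p q G → 16 * C ≤ X n c p q → Measurable (Df (fp n c) (B n c p q)) → Measurable (er (fp n c) (B n c p q)) →
  Eg n c (B n c p q) E → ∀ m < p, ∀ m' < p, ∫⁻ w in ball (0 : ℂ) (R n c q / (8 * C)), ENNReal.ofReal
    (‖tau (B n c p q) G m w‖ + ‖tau (B n c p q) G m' w‖ - ‖tau (B n c p q) G m w + tau (B n c p q) G m' w‖) ≤
      2 * ENNReal.ofReal E

/-! ## Part E: the end -/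

/-- COR3: the Core Theorem for `n ≥ 3` (theorem COR3 ... : COR3_stmt).
PROOF. COPY of helper23/GR/CORE.lean. `Γ = 16C²`, `C₂ = 2000`, `C₃ = 32C²D`; `ρ₁', Λ₁` from LCK with `η = 1/16`; `X₀, c₀` from LOC3 with `ρ₁ = min (1/(8C)) ρ₁'`, `η = 1/16`, `Λ₁`. MD3 gives `i, k, a, b, P, μ, l`; GUN, SCA for `i` and `k` (`‖u₀‖ = 1/X ≤ 1/X₀` for both). LOC3 at `i`: `ρ, κ, d`.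
CASE 1, `¬ n ∣ d + 2`: as in CORE with PH3. CASE 2, `n ∣ d + 2`: `d + 2 ∈ {1,2,3}` and `n ≥ 3` give `n = 3`, `d = 1`. LCK at `k` (`Λ₁‖u₀‖ ≤ Λ₁/X₀ ≤ ρ`, `‖xc k‖ ≤ 2`): `κ'`. CHP with `m = p - i`, `m' = p - k`, `E = 3ε`. Let `L w` be the integrand (before ofReal); the annulus is invariant under `w ↦ -w`:
`∫ ofReal (L w) + ∫ ofReal (L (-w)) ≤ 4 ofReal E` (`Measure.IsNegInvariant`/ `LinearIsometryEquiv.neg`). With `w = R u`, `tau_i (±R u) = θ_i h^i(±u)`, `‖h^i(±u) ∓ κ u‖ ≤ ‖κu‖/16`, `tau_k(±Ru) = θ_k h^k(±u)`, `‖h^k(±u) - κ'‖ ≤ ‖κ'‖/16`, `‖θ_i‖ = ‖θ_k‖ = sg/R²`; PAI for the values divided by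
`sg/R²`: `L w + L (-w) ≥ (sg/R²)/8`. Area `≥ 2ρ²R²`: `sg ρ²/4 ≤ 4 E = 12 ε`: `sg ρ² ≤ 48 ε`. End as in CORE (constant `8` times larger). -/
def COR3_stmt : Prop := ∃ K : ℝ, 1 ≤ K ∧ ∀ n : ℕ, 3 ≤ n → ∀ (c : ℂ) (p q : ℕ) (κ : ℝ), Ret n c p q → 1 ≤ κ →
  ‖S n c p - lam n c p q * S n c q‖ ≤ κ * (‖Z n c p‖ / ‖A n c p‖) * (1 + Real.log (X n c p q)) →
  X n c p q ≤ K * κ * (1 + Real.log (X n c p q))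

/-- G3: THEOREM G for `n ≥ 3` (theorem G3F (h : COR3_stmt) ... : G3_stmt). PROOF. COPY of helper85/GR/GF.lean with `3 ≤ n`. -/
def G3_stmt : Prop := ∃ K : ℝ, ∀ n : ℕ, 3 ≤ n → ∀ c ∈ multibrot n, ∀ p : ℕ, 2 ≤ p → ∀ x : ℝ, 1 ≤ x →
  (∀ j, 1 ≤ j → j < p → x * ‖Z n c p‖ ≤ ‖Z n c j‖) →
  Metric.infDist c (hyperbolic n) ≤ K * (1 + Real.log x) / x

/-- GL3: THEOREM G' for `n ≥ 3` (theorem GL3F (h : COR3_stmt) ... : GL3_stmt). PROOF. COPY of helper9/GR/GLF.lean with `3 ≤ n`. -/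
def GL3_stmt : Prop := ∃ K : ℝ, ∀ n : ℕ, 3 ≤ n → ∀ (c : ℂ) (μ : ℂ → ℂ),
  Pool.Agent.helper98.ILF.IsInvariantLineField (fun z : ℂ => z ^ n + c) μ → ∀ p : ℕ, 2 ≤ p → ∀ x : ℝ, 1 ≤ x →
  (∀ j, 1 ≤ j → j < p → x * ‖Z n c p‖ ≤ ‖Z n c j‖) →
  ‖∫ z : ℂ, μ z / (z - c)‖ * x ≤ K * (1 + Real.log x)

end GR
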